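import Pool.Agent.K9h54.LC.Joint

/-!
# The patterns `(1|1)` and `(3|3)` modulo 4 of consecutive prime pairs `(p, p + d)`, at almost all distances `d ≡ 2 (mod 6)`

The problem is about the distance `d = 2` (`a = 0` below). Here `d = 6 a + 2`, for almost all `a`.

Definitions used (in `Pool.Agent.K9h54.LC.Joint`): `First d p`: `p` and `p + d` are prime; `pattern d x a b`: the counting
function `π₂(x; 4; a|b)` of the problem for the distance `d`.

Method: in windows of length `log ^ 3 X` in which one class leads the other by two or more (Maier's matrix with the product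
of the primes `≡ 3 (mod 4)` up to a bound, and the circle method on average over the distance), two consecutive first
members are in the leading class.
-/

set_option autoImplicit false

namespace Pool.Agent.Results.MP_74f661_nt.SamePatternsOccur

open Finset Pool.Agent.K9h54.LC.Joint

open Classical in
/-- For every `ε > 0` and for arbitrarily large `X`, for all but at most `ε X` of the distances `d = 6 a + 2`, `a ≤ X`,
each of the patterns `(1|1)` and `(3|3)` modulo 4 occurs at least `X ^ (1 - ε)` times among the consecutive first members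
up to `15 X` of the prime pairs at distance `d`. -/
theorem result (ε : ℝ) (hε : 0 < ε) (X₀ : ℕ) : ∃ X : ℕ, X₀ ≤ X ∧
    (((Icc 1 X).filter fun a => ¬ ((X : ℝ) ^ (1 - ε) ≤ pattern (6 * a + 2) (15 * X) 1 1 ∧
      (X : ℝ) ^ (1 - ε) ≤ pattern (6 * a + 2) (15 * X) 3 3)).card : ℝ) ≤ ε * X := by
  obtain ⟨δ, -, h⟩ := joint 3 (by norm_num) ε hε
  obtain ⟨X, hX, h1⟩ := h X₀
  refine ⟨X, hX, le_trans ?_ h1⟩
  exact_mod_cast card_le_card (fun a ha => by
    rw [mem_filter] at ha ⊢
    exact ⟨ha.1, fun h2 => ha.2 ⟨h2.2.2.1, h2.2.2.2⟩⟩)

end Pool.Agent.Results.MP_74f661_nt.SamePatternsOccur
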