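import Pool.Agent.K9h56.TB.Cnt2
import Pool.Agent.K9h56.TC.Fin

/-!
# The bias of consecutive almost-prime twins modulo 4: its exact order and constant

`S_z` is the set of the `n` such that neither `n` nor `n + 2` has a prime factor `≤ z` (the sieve model of the
first members of the twin prime pairs). Among the elements `n ≡ a (mod 4)` of `S_z` the proportion of those
whose successor in `S_z` is `≡ b (mod 4)` is `(1 + D z) / 2` if `a = b` and `(1 - D z) / 2` if `a ≠ b`, and

`D z ∼ - e ^ (- 2 γ) (log log z / log z) ^ 2` as `z → ∞`.

So the proportions tend to `1 / 2`, and the successor prefers the other residue class for every large `z`, by an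
amount which is known asymptotically. The proof combines a formula for `D z` by the pair correlations of `S_z`
with the exact Fourier expansion of these correlations, a Tauberian (convolution) computation of the diagonal term
and a sieve bound for the frequencies near `1 / 2`.
-/

set_option autoImplicit false

open Finset Filter Topology

namespace Pool.Agent.Results.MP_74f661_nt.SieveBiasAsymptotic

/-- Neither `n` nor `n + 2` has a prime factor `≤ z`. -/
def RoughPair (z n : ℕ) : Prop := ∀ p : ℕ, p.Prime → p ≤ z → ¬ p ∣ n ∧ ¬ p ∣ n + 2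

/-- `m` is the successor of `n` in `S_z`. -/
def IsNext (z n m : ℕ) : Prop := n < m ∧ RoughPair z m ∧ ∀ k, n < k → k < m → ¬ RoughPair z k

open Classical in
/-- The number of the elements `n < x` of `S_z` with `n ≡ a (mod 4)`. -/
noncomputable def total (z a x : ℕ) : ℕ := ((range x).filter fun n => RoughPair z n ∧ n % 4 = a).card

open Classical in
/-- The number of the elements `n < x` of `S_z` with `n ≡ a (mod 4)` whose successor in `S_z` is
`≡ b (mod 4)`. -/
noncomputable def count (z a b x : ℕ) : ℕ :=
  ((range x).filter fun n => RoughPair z n ∧ n % 4 = a ∧ ∃ m, IsNext z n m ∧ m % 4 = b).card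

theorem result : ∃ D : ℕ → ℝ,
    (∀ z : ℕ, 5 ≤ z → ∀ a b : ℕ, (a = 1 ∨ a = 3) → (b = 1 ∨ b = 3) →
      Tendsto (fun x : ℕ => (count z a b x : ℝ) / total z a x) atTop
        (𝓝 ((1 + if a = b then D z else - D z) / 2))) ∧
    Tendsto (fun z : ℕ => D z * (Real.log z / Real.log (Real.log z)) ^ 2) atTop
      (𝓝 (-Real.exp (-2 * Real.eulerMascheroniConstant))) :=
  ⟨Pool.Agent.K9h56.TB.Dz, fun z hz a b ha hb => Pool.Agent.K9h56.TB.limits z hz a b ha hb,
    Pool.Agent.K9h56.TC.bias_tend⟩

end Pool.Agent.Results.MP_74f661_nt.SieveBiasAsymptotic
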