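import Pool.Agent.K9h56.TB.Cnt2
import Pool.Agent.K9h56.TB.Grow

/-!
# The bias of consecutive almost-prime twins modulo 4: a formula by pair correlations

`S_z` is the set of the `n` such that neither `n` nor `n + 2` has a prime factor `≤ z` (the sieve model of the
first members of the twin prime pairs). Among the elements `n ≡ a (mod 4)` of `S_z` the proportion of those
whose successor in `S_z` is `≡ b (mod 4)` is `(1 + D z) / 2` if `a = b` and `(1 - D z) / 2` if `a ≠ b`, and

`D z = (1 / δ_z) ∑_{k ≥ 1} (-1) ^ k (1 - δ_z) ^ (k - 1) ρ_z(k) + O((log z) ^ (- 9 / 4))`,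

where `δ_z = ∏_{5 ≤ p ≤ z} (1 - 2 / p) ≍ (log z) ^ (-2)` and `ρ_z(k) = ∏_{5 ≤ p ≤ z} (1 - ν_p(k) / p)` is the
density of the pairs of elements of `S_z` at the distance `6 k` (`ν_p(k)` is the number of the residue classes
modulo `p` which are excluded by the pair). This is the analogue, with a proof, of the conjectural formula of
Lemke Oliver and Soundararajan for the bias in the distribution of consecutive primes. (The main term should be
of the order of magnitude `(log log z / log z) ^ 2`, so that the error saves a power of `log z`.)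
-/

set_option autoImplicit false

open Finset Filter Topology

namespace Pool.Agent.Results.MP_74f661_nt.SieveBiasFormula

/-- Neither `n` nor `n + 2` has a prime factor `≤ z`. -/
def RoughPair (z n : ℕ) : Prop := ∀ p : ℕ, p.Prime → p ≤ z → ¬ p ∣ n ∧ ¬ p ∣ n + 2

/-- `m` is the successor of `n` in `S_z`. -/
def IsNext (z n m : ℕ) : Prop := n < m ∧ RoughPair z m ∧ ∀ k, n < k → k < m → ¬ RoughPair z k

open Classical in
/-- The number of the elements `n < x` of `S_z` with `n ≡ a (mod 4)`. -/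
noncomputable def total (z a x : ℕ) : ℕ := ((range x).filter fun n => RoughPair z n ∧ n % 4 = a).card

open Classical in
/-- The number of the elements `n < x` of `S_z` with `n ≡ a (mod 4)` whose successor in `S_z` is
`≡ b (mod 4)`. -/
noncomputable def count (z a b x : ℕ) : ℕ :=
  ((range x).filter fun n => RoughPair z n ∧ n % 4 = a ∧ ∃ m, IsNext z n m ∧ m % 4 = b).card

/-- `δ_z = ∏_{5 ≤ p ≤ z} (1 - 2 / p)`. -/
noncomputable def delta (z : ℕ) : ℝ := ∏ p ∈ (Icc 5 z).filter Nat.Prime, (1 - 2 / (p : ℝ))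

/-- `ν_p(k)`: the number of the distinct classes among `0, -2, -6 k, -6 k - 2` modulo the prime `p ≥ 5`. -/
def nu (p k : ℕ) : ℕ := if p ∣ k then 2 else if p ∣ 3 * k + 1 ∨ p ∣ 3 * k - 1 then 3 else 4

/-- `ρ_z(k) = ∏_{5 ≤ p ≤ z} (1 - ν_p(k) / p)`. -/
noncomputable def rho (z k : ℕ) : ℝ := ∏ p ∈ (Icc 5 z).filter Nat.Prime, (1 - (nu p k : ℝ) / p)

theorem result : ∃ D : ℕ → ℝ,
    (∀ z : ℕ, 5 ≤ z → ∀ a b : ℕ, (a = 1 ∨ a = 3) → (b = 1 ∨ b = 3) →
      Tendsto (fun x : ℕ => (count z a b x : ℝ) / total z a x) atTop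
        (𝓝 ((1 + if a = b then D z else - D z) / 2))) ∧
    ∀ᶠ z : ℕ in atTop,
      |D z - (∑' k : ℕ, (-1 : ℝ) ^ (k + 1) * (1 - delta z) ^ k * rho z (k + 1)) / delta z| ≤
        (Real.log z) ^ (-(9 / 4) : ℝ) :=
  ⟨Pool.Agent.K9h56.TB.Dz, fun z hz a b ha hb => Pool.Agent.K9h56.TB.limits z hz a b ha hb,
    Pool.Agent.K9h56.TB.formula⟩

end Pool.Agent.Results.MP_74f661_nt.SieveBiasFormula
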