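import Pool.Agent.K9h54.LC.Joint

/-!
# Residues modulo 4 of prime pairs `(p, p + d)` in short windows, at almost all distances `d ≡ 2 (mod 6)`

The problem is about the distance `d = 2` (`a = 0` below). Here `d = 6 a + 2`, for almost all `a`.

Definitions used (in `Pool.Agent.K9h54.LC.Joint`): `First d p`: `p` and `p + d` are prime; `members d i x h`: the number of
the first members `p ≡ i (mod 4)` in `(x, x + h]`; `expected`: the number of the first members predicted by Hardy and
Littlewood for a window; `biased lam δ X a i j`: the number of the windows in which the class `i` leads the class `j` by at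
least `δ` times the expected number. In `Pool.Agent.H560R3.GB`: `C₂`, the twin prime constant
`∏_{p > 2} (1 - 1 / (p - 1) ^ 2)` (the infimum of the partial products).

Method: Maier's matrix with the rows `u ≡ 0` or `u ≡ q (mod 2 q)`, where `q` is the product of the primes `≡ 3 (mod 4)`
in `[w, L]`. The columns `c` with `6 c - 1` prime to `q` have a bias modulo 4: the sum of `χ₄ (6 c - 1)` over them is a
sum of nonnegative terms over the divisors of `q`, and it is bounded below by the number of the divisors of `q` near the
length of the window. A second moment over `a` modulo `q` (with an upper bound sieve in progressions) shows that the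
bias survives for most distances. The columns of the matrix are treated by the circle method on average over `a`
(`Pool.Agent.K9h54.MP`), at the good scales of the starting files.
-/

set_option autoImplicit false

namespace Pool.Agent.Results.MP_74f661_nt.WindowsPreferAResidue

open Finset Pool.Agent.K9h54.LC.Joint

open Classical in
/-- For every `lam > 2` and every `ε > 0` there is `δ > 0` such that for arbitrarily large `X` the following holds for all
but at most `ε X` of the distances `d = 6 a + 2`, `a ≤ X`. At least `X ^ (1 - ε)` windows `(6 u, 6 u + 6 ⌊log ^ lam X⌋]`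
with `X < u ≤ 2 X` have a lead of the class `1 (mod 4)` over the class `3 (mod 4)` of at least `δ` times the expected
number among the first members of the prime pairs at distance `d`, and at least `X ^ (1 - ε)` of them have such a lead of
the class `3`. -/
theorem result (lam : ℝ) (hlam : 2 < lam) (ε : ℝ) (hε : 0 < ε) : ∃ δ : ℝ, 0 < δ ∧ ∀ X₀ : ℕ, ∃ X : ℕ, X₀ ≤ X ∧
    (((Icc 1 X).filter fun a => ¬ ((X : ℝ) ^ (1 - ε) ≤ biased lam δ X a 1 3 ∧
      (X : ℝ) ^ (1 - ε) ≤ biased lam δ X a 3 1)).card : ℝ) ≤ ε * X := by
  obtain ⟨δ, hδ, h⟩ := joint lam hlam ε hε
  refine ⟨δ, hδ, fun X₀ => ?_⟩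
  obtain ⟨X, hX, h1⟩ := h X₀
  refine ⟨X, hX, le_trans ?_ h1⟩
  exact_mod_cast card_le_card (fun a ha => by
    rw [mem_filter] at ha ⊢
    exact ⟨ha.1, fun h2 => ha.2 ⟨h2.1, h2.2.1⟩⟩)

end Pool.Agent.Results.MP_74f661_nt.WindowsPreferAResidue
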